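import Pool.Agent.Work.MP_03d391_lto.B_UFD
import Pool.Agent.Work.MP_03d391_lto.B_NWT
import Pool.Agent.Work.MP_03d391_lto.B_LOC
import Pool.Agent.Work.MP_03d391_lto.B_CON
import Pool.Agent.Work.MP_03d391_lto.B_IND
import Pool.Agent.Work.MP_03d391_lto.B_LA
import Pool.Agent.Work.MP_03d391_lto.B_CLM
import Pool.Agent.Work.MP_03d391_lto.B_DIR
import Pool.Agent.Work.MP_03d391_lto.B_ZER
import Pool.Agent.Work.MP_03d391_lto.B_LOW
import Pool.Agent.Work.MP_03d391_lto.B_CHG
import Pool.Agent.Work.MP_03d391_lto.B_FIN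
import Pool.Agent.Work.MP_03d391_lt2.B_CLMC
import Pool.Agent.Work.MP_03d391_lt2.B_ZERC
import Pool.Agent.Work.MP_03d391_lt2.B_LOWC
import Pool.Agent.Work.MP_03d391_lt2.B_FAC
import Pool.Agent.Work.MP_03d391_lt2.B_KRU
import Pool.Agent.Work.MP_03d391_lt2.X_UNC
import Pool.Agent.Work.MP_03d391_lt2.B_UNA
import Pool.Agent.Work.MP_03d391_lt2.B_UNB
import Pool.Agent.Work.MP_03d391_lt2.B_UND
import Pool.Agent.Work.MP_03d391_lt2.B_UNI
import Pool.Agent.Work.MP_03d391_lt2.X_GRD
import Pool.Agent.Work.MP_03d391_lt2.B_EUL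
import Pool.Agent.Work.MP_03d391_lt2.B_KRA
import Pool.Agent.Work.MP_03d391_lt2.B_KRB
import Pool.Agent.Work.MP_03d391_lt2.B_RLA
import Pool.Agent.Work.MP_03d391_lt2.B_KZ
import Pool.Agent.Work.MP_03d391_lt2.B_KO
import Pool.Agent.Work.MP_03d391_lt2.B_PT
import Pool.Agent.Work.MP_03d391_lt2.B_CA
import Pool.Agent.Work.MP_03d391_lt2.B_CB
import Pool.Agent.Work.MP_03d391_lt2.B_CC
import Pool.Agent.Work.MP_03d391_lt2.B_CD
import Pool.Agent.Work.MP_03d391_lt2.B_NEG
import Pool.Agent.Work.MP_03d391_lt2.B_SF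
import Pool.Agent.Work.MP_03d391_lt2.B_DIRC
import Pool.Agent.Work.MP_03d391_lt2.B_CHA
import Pool.Agent.Work.MP_03d391_lt2.B_CHB
import Pool.Agent.Work.MP_03d391_lt2.B_FINC
import Pool.Agent.Work.MP_03d391_lt2.X_T2C

/-!
# MP_03d391_ag: vector bundles of rank two on `ℙ³ × Spec k[[t]]` with split trivial generic fibre

`k` is a field of characteristic `0`, `S = k[x_0,..,x_3]`, `c ≥ 0`, `F = S[t] ⊕ S[t](c)`: the coordinates of an element of degree `m` have degrees `m` and
`m + c` (`t` has degree `0`). A submodule `E ⊆ F` with `BundleC k c n E` is the module `H⁰_*` of a vector bundle of rank `2` on `ℙ³ × Spec k[[t]]` inside the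
bundle `O ⊕ O(c)`, equal to it outside `t = 0`, with determinant `t^n`:

* `hom`: `E` is graded (`comp m f` is the component of degree `m : ℤ` of `f`, zero for `m < 0`);
* `pow`: `t^N F ⊆ E` for some `N`;
* `sat`: if for every `i` some power of `x_i` multiplies `e` into `E`, then `e ∈ E`;
* `loc`: at every prime `p` of `S` not containing all `x_i` (a point of `ℙ³`) `E` is generated by two elements `v, w` with `det(v,w) = t^n · unit`.

In the fibre at a point `E` is `diag(t^(n-i), t^i)`, `2 i ≤ n`: the type of `E`. `TypeLeOne k E` says that the type has `i ≤ 1` everywhere: `E` is contained in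
`p F + t^2 F` for no `p`. It is automatic for `n ≤ 3`. `Homog c v`: `v` is homogeneous in `F`.

`result`: if `n ≤ 3` or the types have `i ≤ 1`, then `E` is generated by two homogeneous elements. So the special fibre splits. For `c = 0` the two elements
have coordinates in `k[t]`.

By the correspondence of Serre a flat family of curves of `ℙ³` over `k[[t]]` with general member a complete intersection of type `(a,b)`, `c = b - a`, and
smooth special member `C_0` is the zero scheme of a section of `E(a)`, with `E` of this form; `C_0` is a complete intersection if and only if the special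
fibre of `E` splits.
-/

set_option autoImplicit false

noncomputable section

open MvPolynomial

namespace Pool.Agent.Results.MP_03d391_ag.LatticeTypeOneAll

open Pool.LTO Pool.LT2

theorem result (k : Type) [Field k] [CharZero k] (c n : ℕ) (E : Submodule (Polynomial (Sx k)) (Fr k))
    (hE : BundleC k c n E) (h : n ≤ 3 ∨ TypeLeOne k E) :
    ∃ v w : Fr k, Homog c v ∧ Homog c w ∧ E = Submodule.span (Polynomial (Sx k)) {v, w} := by
  have hLOC : Stmt_LOC := p_LOC p_UFD p_NWT
  have hIND : Stmt_IND := p_IND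
  have hFIN : Stmt_FIN := p_FIN (p_DIR (clm hLOC) (p_LA hIND) p_CON) p_ZER p_LOW p_CHG
  have hUNI : Stmt_UNI := p_UNI p_UNA (p_UNB pX_UNC) p_UND
  have hRLA : Stmt_RLA := p_RLA (p_CLMC hLOC) hUNI pX_GRD p_EUL p_KRA p_KRB
  have hPT : Stmt_PT := p_PT (p_KO p_KZ)
  have hSF : Stmt_SF := p_SF p_FAC (p_CC p_KRU hPT p_CA p_CB) (p_CD hPT) p_NEG
  have hDIRC : Stmt_DIRC := p_DIRC p_DETC p_FAC p_KRU p_CA hRLA hSF
  have hFINC : Stmt_FINC := p_FINC hDIRC p_ZERC p_CHA p_CHB
  exact pX_T2C hFINC p_LOWC hFIN k c n E hE h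

end Pool.Agent.Results.MP_03d391_ag.LatticeTypeOneAll
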