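import Pool.Agent.Work.MP_03d391_pen.Final65

/-!
# MP_03d391_ag: families of complete intersection space curves with equations linear in `t`

`k` any field, `S = k[x_0, ..., x_3]`, `F = F0 + t F1`, `G = G0 + t G1` forms of degrees `a`, `b`,
relatively prime in `S[t]`; `I` the ideal of the closure of the generic member of the family
`F = G = 0`, `P` the homogeneous ideal of its special member `C_0` (`t = 0`).  If the generic member
and `C_0` are integral curves and the family is not constant, then `C_0` is the scheme-theoretic
intersection of two surfaces without common component.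

Proof (helper78). `F0 = h V`, `G0 = h U` with `U`, `V` relatively prime; `U F - V G = t H`,
`H = U F1 - V G1`, so `H` is in `I`. If `h` is a unit, then `I(0) = (F0, G0)`. Otherwise `H ≠ 0`, a
prime factor `p` of `H` is in `I`, and `p` does not divide `h` (otherwise `F1`, `G1` are in `I`). In
`(S/p)[t]` we have `V G = U F`; if `u f = α F + β G`, then `V u f = (α V + β U) F`, which gives
`f(0) ∈ (h, p)`. A minimal prime `Q` of `(h, p)` has height at most `2` and contains `P`, so `P = Q`.
-/

set_option autoImplicit false

namespace Pool.Agent.Results.MP_03d391_ag.LinearPencils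

open Polynomial Pool.Pen

/-- Limits of integral complete intersection curves in families with equations linear in `t`. -/
theorem result {k : Type} [Field k] (a b : ℕ) (F0 F1 G0 G1 : MvPolynomial (Fin 4) k)
    (I : Ideal (MvPolynomial (Fin 4) k)[X]) (P : Ideal (MvPolynomial (Fin 4) k))
    (h : PencilFamily a b F0 F1 G0 G1 I P) :
    ∃ (A B : MvPolynomial (Fin 4) k) (m n : ℕ), A.IsHomogeneous m ∧ B.IsHomogeneous n ∧
      IsRelPrime A B ∧
      ∀ f, f ∈ P ↔ ∀ i, ∃ N : ℕ, MvPolynomial.X i ^ N * f ∈ Ideal.span {A, B} :=
  pencil65 a b F0 F1 G0 G1 I P h

end Pool.Agent.Results.MP_03d391_ag.LinearPencils
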