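import Pool.Agent.Work.MP_03d391_sc.All
import Pool.Agent.Work.MP_03d391_sc.Interface3
import Pool.Agent.Work.MP_03d391_sc.B_EX6
import Pool.Agent.Work.MP_03d391_sc.B_EX5
import Pool.Agent.Work.MP_03d391_sc.Statement
import Pool.Agent.Work.MP_03d391_sc.Bridge

/-!
# MP_03d391_ag: limits of complete intersection space curves

`R` is a discrete valuation ring with residue field `k`, `I ⊆ R[x_0,..,x_3]` the homogeneous ideal of
a flat family of space curves with a complete intersection of type `(a,b)` as generic member and an
integral special member `C_0` with homogeneous ideal `P` (`Family`; the line `x_0 = x_1 = 0` does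
not meet `C_0`, which is a choice of coordinates). `B = SecRing P` is the section ring
`⊕ H⁰(C_0, O(n))`, `S = k[x_0,..,x_3]`, `e = a + b - 4`; `k` has characteristic different from `2`.

`C_0` is a complete intersection in each of the following cases.

1. For all homogeneous `x, y ∈ B` with `deg x + deg y = e` the relative differential form
   `y dx ∈ Ω(B/S)` is exact.
2. `k` has characteristic `0` and `B` is generated over `S` by homogeneous elements `ε_i` of
   positive degrees such that for `i ≠ j` either `deg ε_i + deg ε_j > e`, or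
   `ε_i ε_j ∈ S + Σ S ε_l` and every form of degree `e - deg ε_i - deg ε_j` is in
   `(S : ε_i) + (S : ε_j)`. For instance: `B` is generated by one homogeneous element.
3. `B` is generated as an `S`-module by `1` and homogeneous elements `ε_i` such that for `i ≠ j`
   every form of degree `e - deg ε_i - deg ε_j` is in `(S : ε_i) + (S : ε_j)`. For instance: the Rao
   module of `C_0` is cyclic (as for the projections to `ℙ³` of the extremal curves of Castelnuovo
   in `ℙ⁴` of degree `20` and genus `51`, candidates for `(a,b) = (4,5)`), or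
   `deg ε_i + deg ε_j > e` for `i ≠ j`.
4. For every `n` the surfaces of degree `n` cut out a complete linear series on `C_0`, or those
   of degree `e - n` do.
-/

set_option autoImplicit false

noncomputable section

open MvPolynomial TensorProduct

namespace Pool.Agent.Results.MP_03d391_ag.SectionRingCriterion

open Pool.SC Pool.SCS

theorem exact_left {A B : Type} [CommRing A] [CommRing B] [Algebra A B] (x y : B) (f : A)
    (hx : x = algebraMap A B f) :
    ∃ z : B, y • KaehlerDifferential.D A B x = KaehlerDifferential.D A B z := by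
  refine ⟨0, ?_⟩
  rw [hx, Derivation.map_algebraMap, smul_zero, map_zero]

theorem exact_right {A B : Type} [CommRing A] [CommRing B] [Algebra A B] (x y : B) (f : A)
    (hy : y = algebraMap A B f) :
    ∃ z : B, y • KaehlerDifferential.D A B x = KaehlerDifferential.D A B z := by
  refine ⟨f • x, ?_⟩
  rw [hy, Derivation.map_smul, algebraMap_smul]

theorem exact_of_allFrom (A B : Type) [CommRing A] [CommRing B] [Algebra A B]
    (H : ℤ → B → Prop) (e : ℤ) (h : ∀ n m : ℤ, n + m = e → AllFrom A B H n ∨ AllFrom A B H m) :
    Exact A B H e := by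
  intro n m hnm x y hx hy
  rcases h n m hnm with h1 | h1
  · obtain ⟨f, hf⟩ := h1 x hx
    exact exact_left x y f hf
  · obtain ⟨f, hf⟩ := h1 y hy
    exact exact_right x y f hf

theorem family (R : Type) [CommRing R] [IsDomain R] [IsDiscreteValuationRing R]
    (I : Ideal (Pol R)) (P : Ideal (Pol (κ R))) (a b : ℕ) (h : Family R I P a b) :
    IsFamily R I P a b :=
  ⟨h.hom, h.flat, h.gen, h.special.prime, h.special.le, h.special.sat, h.line⟩

theorem result (R : Type) [CommRing R] [IsDomain R] [IsDiscreteValuationRing R]
    (h2 : (2 : κ R) ≠ 0) (I : Ideal (Pol R)) (P : Ideal (Pol (κ R))) (a b : ℕ)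
    (h : Family R I P a b) :
    (Exact (Pol (κ R)) (SecRing P) (IsSection P) ((a : ℤ) + b - 4) →
      IsCompleteIntersection P) ∧
    (CharZero (κ R) → Pool.SCS.AlmostMono (Pol (κ R)) (SecRing P) HZ (IsSection P)
      ((a : ℤ) + b - 4) → IsCompleteIntersection P) ∧
    (Pool.SCS.AlmostCyclic (Pol (κ R)) (SecRing P) HZ (IsSection P) ((a : ℤ) + b - 4) →
      IsCompleteIntersection P) ∧
    ((∀ n m : ℤ, n + m = (a : ℤ) + b - 4 → AllFrom (Pol (κ R)) (SecRing P) (IsSection P) n ∨
      AllFrom (Pol (κ R)) (SecRing P) (IsSection P) m) → IsCompleteIntersection P) := by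
  have hf := family R I P a b h
  obtain ⟨N, r, β, σ, s, o⟩ := stage1 all_GEN p_NKR p_CON (p_TRS p_FGN) (p_TFL p_CON) p_HFL p_PIN
    p_PHM p_SBR R I P a b hf
  have key : Exact (Pol (κ R)) (SecRing P) (IsSection P) ((a : ℤ) + b - 4) →
      IsCompleteIntersection P := by
    intro h1
    obtain ⟨a', b', F, G, hF, hG, hP⟩ := crit R h2 I P a b hf ((exact_iff P _).1 h1)
    exact ⟨a', b', F, G, hF, hG, hP⟩
  refine ⟨key, fun h0 h1 => key ?_, fun h1 => key ?_, fun h1 => key ?_⟩
  · exact (exact_iff P _).2 (p_EX5 all_GRB (κ R) P _ hf.prime o.hP o.x0 ((mono_iff P _).1 h1))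
  · exact (exact_iff P _).2 (p_EX6 all_GRB (κ R) P _ hf.prime o.hP o.x0 h2
      ((cyclic_iff P _).1 h1))
  · exact exact_of_allFrom _ _ _ _ h1

end Pool.Agent.Results.MP_03d391_ag.SectionRingCriterion
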